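import Pool.Agent.Helper85.LN2.Goals
import Pool.Agent.Helper42.LN.ENCC

/-! # Project LN2 (MP_d0c558_al), packet ENCC2: codes of second certificates. -/

set_option autoImplicit false

namespace Pool.Agent.Helper60.LN2

open Pool.Agent.Helper85.LN Pool.Agent.Helper85.LN2 Pool.Agent.Helper42.LN

section Forward

variable {m : ℕ} {R L Y : List (List (S (Fin m)))} {K : List (List WC)}

theorem eqvC_of (h1 : S_ENC1) {u v : List (S (Fin m))}
    (h : EqvC m (R.map codeW ++ L.map codeW) K (codeW u) (codeW v)) : Eqv (R ++ L) u v := by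
  obtain ⟨c, -, hc⟩ := h
  rw [← List.map_append] at hc
  exact (h1 m (R ++ L) u v).1 ⟨c, hc⟩

theorem eqvSC_of (h12 : S_ENC12) {u v : List (S (Fin m))}
    (h : EqvSC m (R.map codeW) (L.map codeW) K (codeW u) (codeW v)) : EqvS R L u v := by
  obtain ⟨c, -, hc⟩ := h
  exact (h12 m R L u v).1 ⟨c, hc⟩

theorem chkY_of (h1 : S_ENC1) (h12 : S_ENC12)
    (h : ChkY m (R.map codeW) (L.map codeW) (Y.map codeW) K) : YCond R L Y := by
  obtain ⟨ha, hb, hc⟩ := h
  refine ⟨fun y hy q b => ?_, fun y hy y' hy' => ?_, fun y hy s hs => ?_⟩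
  · obtain ⟨h3, h4⟩ := ha (codeW y) (List.mem_map_of_mem hy) q q.2
    cases b
    · obtain ⟨yc, hyc, h5⟩ := h4
      obtain ⟨y', hy', rfl⟩ := List.mem_map.1 hyc
      refine ⟨y', hy', eqvC_of h1 (K := K) ?_⟩
      rw [codeW_append, codeW_append]
      exact h5
    · obtain ⟨yc, hyc, h5⟩ := h3
      obtain ⟨y', hy', rfl⟩ := List.mem_map.1 hyc
      refine ⟨y', hy', eqvC_of h1 (K := K) ?_⟩
      rw [codeW_append, codeW_append]
      exact h5
  · refine eqvSC_of h12 (K := K) ?_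
    rw [codeW_append, codeW_append]
    exact hb _ (List.mem_map_of_mem hy) _ (List.mem_map_of_mem hy')
  · refine eqvSC_of h12 (K := K) ?_
    rw [codeW_append, codeW_append]
    exact hc _ (List.mem_map_of_mem hy) _ (List.mem_map_of_mem hs)

theorem chk2S_of (h0 : S_ENC0) (h1 : S_ENC1) (h12 : S_ENC12) {k : ℕ} {T : Tab}
    {W : WA (Fin m) (Fin k)} (hT : Reps T W)
    (h : Chk2S m T k (R.map codeW) (L.map codeW) (Y.map codeW) K) : Resp2 R L Y W := by
  obtain ⟨ha, hb⟩ := h
  refine ⟨fun r hr z => ?_, fun s hs z => ?_⟩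
  · obtain ⟨h2, h3⟩ := ha (codeW r) (List.mem_map_of_mem hr) z z.2
    rw [h0.1 m k T W hT r z] at h2 h3
    exact ⟨Fin.ext h2, eqvSC_of (v := []) h12 h3⟩
  · obtain ⟨h2, yc, hyc, h3⟩ := hb (codeW s) (List.mem_map_of_mem hs) z z.2
    rw [h0.1 m k T W hT s z] at h2 h3
    obtain ⟨y, hy, rfl⟩ := List.mem_map.1 hyc
    exact ⟨Fin.ext h2, y, hy, eqvC_of h1 h3⟩

end Forward

section Backward

variable {m : ℕ} {R L Y : List (List (S (Fin m)))}

/-- a pool for a list of words -/
theorem exists_pool (h1 : S_ENC1) (h12 : S_ENC12) (Ws : List (List (S (Fin m)))) :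
    ∃ K : List (List WC), (∀ u ∈ Ws, ∀ v ∈ Ws, Eqv (R ++ L) u v →
        EqvC m (R.map codeW ++ L.map codeW) K (codeW u) (codeW v)) ∧
      ∀ u ∈ Ws, ∀ v ∈ Ws, EqvS R L u v →
        EqvSC m (R.map codeW) (L.map codeW) K (codeW u) (codeW v) := by
  classical
  have hch1 : ∀ u v, ∃ c, Eqv (R ++ L) u v →
      ChainC m (R.map codeW ++ L.map codeW) c (codeW u) (codeW v) := by
    intro u v
    by_cases h : Eqv (R ++ L) u v
    · obtain ⟨c, hc⟩ := (h1 m (R ++ L) u v).2 h
      rw [List.map_append] at hc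
      exact ⟨c, fun _ => hc⟩
    · exact ⟨[], fun h' => absurd h' h⟩
  have hch2 : ∀ u v, ∃ c, EqvS R L u v →
      ChainSC m (R.map codeW) (L.map codeW) c (codeW u) (codeW v) := by
    intro u v
    by_cases h : EqvS R L u v
    · obtain ⟨c, hc⟩ := (h12 m R L u v).2 h
      exact ⟨c, fun _ => hc⟩
    · exact ⟨[], fun h' => absurd h' h⟩
  choose ch1 hch1 using hch1
  choose ch2 hch2 using hch2
  refine ⟨Ws.flatMap fun u => Ws.flatMap fun v => [ch1 u v, ch2 u v], ?_, ?_⟩
  · intro u hu v hv h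
    refine ⟨ch1 u v, ?_, hch1 u v h⟩
    exact List.mem_flatMap.2 ⟨u, hu, List.mem_flatMap.2 ⟨v, hv, by simp⟩⟩
  · intro u hu v hv h
    refine ⟨ch2 u v, ?_, hch2 u v h⟩
    exact List.mem_flatMap.2 ⟨u, hu, List.mem_flatMap.2 ⟨v, hv, by simp⟩⟩

theorem exists_words {d k : ℕ} (A : Auto (Fin m) (Fin d)) (B : WA (Fin m) (Fin k))
    (t : Fin d → Fin k) (l : Fin d → List (S (Fin m))) :
    ∃ Ws : List (List (S (Fin m))), [] ∈ Ws ∧ (∀ y ∈ Y, y ∈ Ws) ∧
      (∀ y ∈ Y, ∀ q b, [(q, b)] ++ (y ++ [(q, !b)]) ∈ Ws) ∧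
      (∀ y ∈ Y, ∀ y' ∈ Y, y ++ y' ∈ Ws) ∧
      (∀ y ∈ Y, ∀ s ∈ L, y ++ s ∈ Ws ∧ s ++ y ∈ Ws) ∧
      (∀ r ∈ R ++ L, ∀ z, A.toWA.scw r z ∈ Ws) ∧
      (∀ r ∈ R ++ L, ∀ z, B.scw r z ∈ Ws) ∧
      ∀ q a, B.sc (A.tr q a, true) (t a) ++ l a ∈ Ws ∧ l (A.out q a) ++ [(q, true)] ∈ Ws := by
  refine ⟨[[]] ++ (Y ++ ((Y.flatMap fun y => (List.finRange m).flatMap fun q =>
      [true, false].map fun b => [(q, b)] ++ (y ++ [(q, !b)])) ++
    ((Y.flatMap fun y => Y.map fun y' => y ++ y') ++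
    ((Y.flatMap fun y => L.flatMap fun s => [y ++ s, s ++ y]) ++
    (((R ++ L).flatMap fun r => (List.finRange d).map fun z => A.toWA.scw r z) ++
    (((R ++ L).flatMap fun r => (List.finRange k).map fun z => B.scw r z) ++
    ((List.finRange m).flatMap fun q => (List.finRange d).flatMap fun a =>
      [B.sc (A.tr q a, true) (t a) ++ l a, l (A.out q a) ++ [(q, true)]]))))))),
    ?_, ?_, ?_, ?_, ?_, ?_, ?_, ?_⟩
  · exact List.mem_append_left _ (by simp)
  · intro y hy
    exact List.mem_append_right _ (List.mem_append_left _ hy)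
  · intro y hy q b
    refine List.mem_append_right _ (List.mem_append_right _ (List.mem_append_left _ ?_))
    exact List.mem_flatMap.2 ⟨y, hy, List.mem_flatMap.2 ⟨q, List.mem_finRange _,
      List.mem_map.2 ⟨b, by cases b <;> simp, rfl⟩⟩⟩
  · intro y hy y' hy'
    refine List.mem_append_right _ (List.mem_append_right _ (List.mem_append_right _
      (List.mem_append_left _ ?_)))
    exact List.mem_flatMap.2 ⟨y, hy, List.mem_map.2 ⟨y', hy', rfl⟩⟩
  · intro y hy s hs
    constructor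
    · refine List.mem_append_right _ (List.mem_append_right _ (List.mem_append_right _
        (List.mem_append_right _ (List.mem_append_left _ ?_))))
      exact List.mem_flatMap.2 ⟨y, hy, List.mem_flatMap.2 ⟨s, hs, by simp⟩⟩
    · refine List.mem_append_right _ (List.mem_append_right _ (List.mem_append_right _
        (List.mem_append_right _ (List.mem_append_left _ ?_))))
      exact List.mem_flatMap.2 ⟨y, hy, List.mem_flatMap.2 ⟨s, hs, by simp⟩⟩
  · intro r hr z
    refine List.mem_append_right _ (List.mem_append_right _ (List.mem_append_right _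
      (List.mem_append_right _ (List.mem_append_right _ (List.mem_append_left _ ?_)))))
    exact List.mem_flatMap.2 ⟨r, hr, List.mem_map.2 ⟨z, List.mem_finRange _, rfl⟩⟩
  · intro r hr z
    refine List.mem_append_right _ (List.mem_append_right _ (List.mem_append_right _
      (List.mem_append_right _ (List.mem_append_right _ (List.mem_append_right _
        (List.mem_append_left _ ?_))))))
    exact List.mem_flatMap.2 ⟨r, hr, List.mem_map.2 ⟨z, List.mem_finRange _, rfl⟩⟩
  · intro q a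
    constructor
    · refine List.mem_append_right _ (List.mem_append_right _ (List.mem_append_right _
        (List.mem_append_right _ (List.mem_append_right _ (List.mem_append_right _
          (List.mem_append_right _ ?_))))))
      exact List.mem_flatMap.2 ⟨q, List.mem_finRange _,
        List.mem_flatMap.2 ⟨a, List.mem_finRange _, by simp⟩⟩
    · refine List.mem_append_right _ (List.mem_append_right _ (List.mem_append_right _
        (List.mem_append_right _ (List.mem_append_right _ (List.mem_append_right _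
          (List.mem_append_right _ ?_))))))
      exact List.mem_flatMap.2 ⟨q, List.mem_finRange _,
        List.mem_flatMap.2 ⟨a, List.mem_finRange _, by simp⟩⟩

theorem chk2S_to (h0 : S_ENC0) {k : ℕ} {T : Tab} {W : WA (Fin m) (Fin k)} (hT : Reps T W)
    {K : List (List WC)} {Ws : List (List (S (Fin m)))} (hn : [] ∈ Ws) (hY : ∀ y ∈ Y, y ∈ Ws)
    (hWs : ∀ r ∈ R ++ L, ∀ z, W.scw r z ∈ Ws)
    (hK1 : ∀ u ∈ Ws, ∀ v ∈ Ws, Eqv (R ++ L) u v →
        EqvC m (R.map codeW ++ L.map codeW) K (codeW u) (codeW v))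
    (hK2 : ∀ u ∈ Ws, ∀ v ∈ Ws, EqvS R L u v →
        EqvSC m (R.map codeW) (L.map codeW) K (codeW u) (codeW v))
    (h : Resp2 R L Y W) : Chk2S m T k (R.map codeW) (L.map codeW) (Y.map codeW) K := by
  refine ⟨fun rc hr z hz => ?_, fun sc hs z hz => ?_⟩
  · obtain ⟨r, hr', rfl⟩ := List.mem_map.1 hr
    have e1 := h0.1 m k _ _ hT r ⟨z, hz⟩
    simp only at e1
    rw [e1]
    obtain ⟨h2, h3⟩ := h.1 r hr' ⟨z, hz⟩
    exact ⟨by rw [h2], hK2 _ (hWs r (List.mem_append_left _ hr') _) _ hn h3⟩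
  · obtain ⟨s, hs', rfl⟩ := List.mem_map.1 hs
    have e1 := h0.1 m k _ _ hT s ⟨z, hz⟩
    simp only at e1
    rw [e1]
    obtain ⟨h2, y, hy, h3⟩ := h.2 s hs' ⟨z, hz⟩
    exact ⟨by rw [h2], codeW y, List.mem_map_of_mem hy,
      hK1 _ (hWs s (List.mem_append_right _ hs') _) _ (hY y hy) h3⟩

end Backward

theorem encc2 : S_ENCC2 := by
  classical
  intro h0 h1 h12 m d A
  have hA := h0.2.2.1 m d A
  constructor
  · rintro ⟨⟨R, L, Y, k, B, t, l, K⟩, ⟨⟨hc1, hc2, hc3⟩, hcL, hcY⟩, hc3', hc4, hc5, hc6⟩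
    simp only at hc1 hc2 hc3 hcL hcY hc3' hc4 hc5 hc6
    rw [enc_len] at hc1 hc2 hc3 hcL hcY hc3' hc4 hc5
    rw [enc_fst] at hc3 hc4
    obtain ⟨R', rfl⟩ : ∃ R' : List (List (S (Fin m))), R = R'.map codeW :=
      ⟨R.map (dec m), (map_dec R hc1).symm⟩
    obtain ⟨L', rfl⟩ : ∃ L' : List (List (S (Fin m))), L = L'.map codeW :=
      ⟨L.map (dec m), (map_dec L hcL).symm⟩
    obtain ⟨Y', rfl⟩ : ∃ Y' : List (List (S (Fin m))), Y = Y'.map codeW :=
      ⟨Y.map (dec m), (map_dec Y hcY).symm⟩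
    have hout : ∀ q : Fin m, ∃ e : Equiv.Perm (Fin k), B.1.getD q [] = List.ofFn fun z => (e z : ℕ) :=
      fun q => row_equiv (hc2 q q.2).1 (hc2 q q.2).2.1
    choose out hout using hout
    let W : WA (Fin m) (Fin k) := ⟨out, fun q z => dec m ((B.2.getD q []).getD z [])⟩
    have hW : Reps B W := by
      refine ⟨hout, fun q z => ?_⟩
      exact (codeW_dec _ ((hc2 q q.2).2.2 z z.2)).symm
    let t' : Fin d → Fin k := fun a => ⟨t.getD a 0, (hc3 a a.2).1⟩
    let l' : Fin d → List (S (Fin m)) := fun a => dec m (l.getD a [])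
    have hl' : ∀ a : Fin d, codeW (l' a) = l.getD a [] := fun a => codeW_dec _ (hc3 a a.2).2
    refine ⟨R', L', Y', k, W, t', l', chkY_of h1 h12 hc3', chk2S_of h0 h1 h12 hA hc4,
      chk2S_of h0 h1 h12 hW hc5, ?_⟩
    intro q a
    obtain ⟨h2, hc⟩ := hc6 q (by rw [enc_len]; exact q.2) a a.2
    rw [enc_tr, enc_out] at h2 hc
    rw [enc_len] at hc
    obtain ⟨h3, h4⟩ := h0.2.1 m k B W hW (A.tr q a, true) (t' a)
    simp only at h3 h4
    have h5 : (t' a : ℕ) = t.getD a 0 := rfl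
    rw [h5] at h3 h4
    rw [h3] at h2
    refine ⟨Fin.ext h2, ?_⟩
    refine eqvSC_of h12 (K := K) ?_
    rw [codeW_append, codeW_append, ← h4, hl', hl']
    exact hc
  · rintro ⟨R, L, Y, k, B, t, l, hY, hR1, hR2, hR3⟩
    obtain ⟨Ws, w1, w2, w3, w4, w5, w6, w7, w8⟩ := exists_words (R := R) (L := L) (Y := Y) A B t l
    obtain ⟨K, hK1, hK2⟩ := exists_pool (R := R) (L := L) h1 h12 Ws
    let TB : Tab := (List.ofFn fun q => List.ofFn fun z => (B.out q z : ℕ),
      List.ofFn fun q => List.ofFn fun z => codeW (B.sec1 q z))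
    have hTB : Reps TB B := by
      refine ⟨fun q => ?_, fun q z => ?_⟩
      · show (List.ofFn fun q => List.ofFn fun z => (B.out q z : ℕ)).getD q [] = _
        rw [getD_ofFn]
      · show ((List.ofFn fun q => List.ofFn fun z => codeW (B.sec1 q z)).getD q []).getD z [] = _
        rw [getD_ofFn, getD_ofFn]
    let tC : List ℕ := List.ofFn fun a => (t a : ℕ)
    let lC : List WC := List.ofFn fun a => codeW (l a)
    have htC : ∀ a : Fin d, tC.getD a 0 = t a := fun a => getD_ofFn _ a 0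
    have hlC : ∀ a : Fin d, lC.getD a [] = codeW (l a) := fun a => getD_ofFn _ a []
    have hok : ∀ Z : List (List (S (Fin m))), ∀ r ∈ Z.map codeW, OkC m r := by
      intro Z r hr
      obtain ⟨r', -, rfl⟩ := List.mem_map.1 hr
      exact codeW_ok r'
    refine ⟨(R.map codeW, L.map codeW, Y.map codeW, k, TB, tC, lC, K),
      ⟨⟨?_, ?_, ?_⟩, ?_, ?_⟩, ?_, ?_, ?_, ?_⟩
    · rw [enc_len]
      exact hok R
    · rw [enc_len]
      intro q hq
      simp only
      have e1 := hTB.1 ⟨q, hq⟩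
      simp only at e1
      refine ⟨?_, ?_, ?_⟩
      · rw [e1, List.length_ofFn]
      · intro z hz
        rw [e1, List.mem_ofFn]
        exact ⟨(B.out ⟨q, hq⟩).symm ⟨z, hz⟩, by simp⟩
      · intro z hz
        have e2 := hTB.2 ⟨q, hq⟩ ⟨z, hz⟩
        simp only at e2
        rw [e2]
        exact codeW_ok _
    · rw [enc_len, enc_fst]
      intro a ha
      simp only
      have e1 := htC ⟨a, ha⟩
      have e2 := hlC ⟨a, ha⟩
      simp only at e1 e2
      rw [e1, e2]
      exact ⟨(t ⟨a, ha⟩).2, codeW_ok _⟩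
    · rw [enc_len]
      exact hok L
    · rw [enc_len]
      exact hok Y
    · rw [enc_len]
      refine ⟨fun yc hyc q hq => ?_, fun yc hyc yc' hyc' => ?_, fun yc hyc sc hsc => ?_⟩
      · obtain ⟨y, hy, rfl⟩ := List.mem_map.1 hyc
        constructor
        · obtain ⟨y', hy', h⟩ := hY.1 y hy ⟨q, hq⟩ true
          have h3 := hK1 _ (w3 y hy ⟨q, hq⟩ true) _ (w2 y' hy') h
          rw [codeW_append, codeW_append] at h3
          exact ⟨codeW y', List.mem_map_of_mem hy', h3⟩
        · obtain ⟨y', hy', h⟩ := hY.1 y hy ⟨q, hq⟩ false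
          have h3 := hK1 _ (w3 y hy ⟨q, hq⟩ false) _ (w2 y' hy') h
          rw [codeW_append, codeW_append] at h3
          exact ⟨codeW y', List.mem_map_of_mem hy', h3⟩
      · obtain ⟨y, hy, rfl⟩ := List.mem_map.1 hyc
        obtain ⟨y', hy', rfl⟩ := List.mem_map.1 hyc'
        have h3 := hK2 _ (w4 y hy y' hy') _ (w4 y' hy' y hy) (hY.2.1 y hy y' hy')
        rw [codeW_append, codeW_append] at h3
        exact h3
      · obtain ⟨y, hy, rfl⟩ := List.mem_map.1 hyc
        obtain ⟨s, hs, rfl⟩ := List.mem_map.1 hsc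
        have h3 := hK2 _ (w5 y hy s hs).1 _ (w5 y hy s hs).2 (hY.2.2 y hy s hs)
        rw [codeW_append, codeW_append] at h3
        exact h3
    · rw [enc_len, enc_fst]
      exact chk2S_to h0 hA w1 w2 w6 hK1 hK2 hR1
    · rw [enc_len]
      exact chk2S_to h0 hTB w1 w2 w7 hK1 hK2 hR2
    · intro q hq a ha
      rw [enc_len] at hq
      have hq' : q = ((⟨q, hq⟩ : Fin m) : ℕ) := rfl
      have ha' : a = ((⟨a, ha⟩ : Fin d) : ℕ) := rfl
      generalize (⟨q, hq⟩ : Fin m) = q' at hq'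
      generalize (⟨a, ha⟩ : Fin d) = a' at ha'
      subst hq'
      subst ha'
      simp only
      rw [enc_tr, enc_out, enc_len, htC, htC, hlC, hlC]
      obtain ⟨h3, h4⟩ := h0.2.1 m k TB B hTB (A.tr q' a', true) (t a')
      simp only at h3 h4
      rw [h3, h4]
      obtain ⟨h5, h6⟩ := hR3 q' a'
      refine ⟨by rw [h5], ?_⟩
      have := hK2 _ (w8 q' a').1 _ (w8 q' a').2 h6
      rw [codeW_append, codeW_append] at this
      exact this

end Pool.Agent.Helper60.LN2
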